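import Pool.Agent.Hhelper78.RandomEdgePoly.Range

open scoped ENNReal
open Pool.Agent.Hhelper78.RandomEdge

/-- For every `r` there is a constant `C` such that for all `d ≥ 1` and all `n ≥ d + r + 1`,
`R(d, n) ≤ C / d ^ r * (n - ⌈d/2⌉ choose ⌊d/2⌋)`. The binomial coefficient is at most the largest
number of vertices of a simple `d`-polytope with `n` facets, and at least half of it. The range of
`n` is best possible: for `r ≥ 1` no constant works for `n = d + r`. -/
theorem Pool.Agent.Results.MP_97b7ce_lc.AnyPower.result :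
    (∀ r : ℕ, ∃ C : ℝ, ∀ d n : ℕ, 1 ≤ d → d + r + 1 ≤ n →
      R d n ≤ ENNReal.ofReal
        (C / (d : ℝ) ^ r * ((n - (d + 1) / 2).choose (d / 2) : ℝ))) ∧
    (∀ r : ℕ, 1 ≤ r → ∀ C : ℝ, ∃ d : ℕ, 1 ≤ d ∧
      ENNReal.ofReal (C / (d : ℝ) ^ r * ((d + r - (d + 1) / 2).choose (d / 2) : ℝ)) <
        R d (d + r)) :=
  ⟨Pool.Agent.Hhelper78.RandomEdgePoly.R_bound', Pool.Agent.Hhelper78.RandomEdgePoly.R_sharp⟩
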