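import Pool.Agent.Hhelper78.RandomEdge.Final

open Pool.Agent.Hhelper78.RandomEdge

/-- For every even dimension `d = 2 k ≥ 4` there is a constant `C` (depending only on `d`) such that
`R(d, n) ≤ C n^{(d-1)/2}` for all `n`. -/
theorem Pool.Agent.Results.MP_97b7ce_lc.EvenDimUpperBound.result :
    ∀ k : ℕ, 2 ≤ k → ∃ C : ℝ, ∀ n : ℕ,
      R (2 * k) n ≤ ENNReal.ofReal (C * (n : ℝ) ^ ((k : ℝ) - 1 / 2)) :=
  fun k hk => ⟨Flow.CC k, fun n => R_le k hk n⟩
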