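import Pool.Agent.FewFacets.LowerMain

/-!
# Random edge on simple polytopes with few facets

For every fixed `k ≥ 1` the worst-case expected number of pivot steps of the random-edge simplex
method on simple `d`-polytopes with `n = d + k` facets is of the exact order `(log n)^k`.
-/

open scoped ENNReal
open Pool.Agent.Hhelper78.RandomEdge Pool.Agent.FewFacets

namespace Pool.Agent.Results.MP_97b7ce_lc.FewFacets

namespace Aux

lemma aux_log (n : ℕ) : ((Nat.log 2 n + 1 : ℕ) : ℝ) ≤ 2 * (1 + Real.log n) := by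
  rcases Nat.eq_zero_or_pos n with h | h
  · subst h
    simp
  · have h1 : ((2 : ℝ)) ^ Nat.log 2 n ≤ n := by
      exact_mod_cast Nat.pow_log_le_self 2 (by omega)
    have h2 : (Nat.log 2 n : ℝ) * Real.log 2 ≤ Real.log n := by
      rw [← Real.log_pow]
      exact Real.log_le_log (by positivity) h1
    have h3 := Real.log_two_gt_d9
    push_cast
    have h4 : (0 : ℝ) ≤ Nat.log 2 n := by positivity
    nlinarith

/-- the upper bound -/
theorem upper (k : ℕ) : ∃ C : ℝ, ∀ d : ℕ,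
    R d (d + k) ≤ ENNReal.ofReal (C * (1 + Real.log ((d + k : ℕ) : ℝ)) ^ k) := by
  refine ⟨Sys.cG k * 2 ^ k, fun d => ?_⟩
  unfold R
  refine iSup_le fun L => ?_
  have h1 := expectedSteps_le L (J := Nat.log 2 (d + k) + 1)
    (Nat.lt_pow_succ_log_self (by norm_num) _) (by omega)
  have h2 : d + k - d = k := by omega
  rw [h2] at h1
  refine h1.trans (ENNReal.ofReal_le_ofReal ?_)
  have h3 := aux_log (d + k)
  have h4 := Sys.cG_nonneg k
  calc Sys.cG k * ((Nat.log 2 (d + k) + 1 : ℕ) : ℝ) ^ k ≤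
      Sys.cG k * (2 * (1 + Real.log ((d + k : ℕ) : ℝ))) ^ k := by gcongr
    _ = _ := by rw [mul_pow]; ring

/-- the lower bound -/
theorem lower' (k : ℕ) (hk : 1 ≤ k) : ∃ c : ℝ, 0 < c ∧ ∃ D : ℕ, ∀ d ≥ D,
    ENNReal.ofReal (c * Real.log ((d + k : ℕ) : ℝ) ^ k) ≤ R d (d + k) := by
  obtain ⟨k, rfl⟩ : ∃ k', k = k' + 1 := ⟨k - 1, by omega⟩
  obtain ⟨c, hc, D, hD⟩ := lower k
  refine ⟨c / 2 ^ (k + 1), by positivity, max D (k + 3), fun d hd => ?_⟩
  obtain ⟨L, hL⟩ := hD d (le_trans (le_max_left _ _) hd)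
  have hdk : k + 3 ≤ d := le_trans (le_max_right _ _) hd
  refine le_trans ?_ (hL.trans (le_iSup (fun L : LPInstance d (d + (k + 1)) =>
    L.expectedSteps) L))
  apply ENNReal.ofReal_le_ofReal
  have h1 : Real.log ((d + (k + 1) : ℕ) : ℝ) ≤ 2 * Real.log d := by
    have h2 : (2 : ℝ) * Real.log d = Real.log ((d : ℝ) ^ 2) := by
      rw [Real.log_pow]; push_cast; ring
    rw [h2]
    apply Real.log_le_log
    · have : 0 < d + (k + 1) := by omega
      exact_mod_cast this
    · have : d + (k + 1) ≤ d ^ 2 := by nlinarith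
      exact_mod_cast this
  have h3 : 0 ≤ Real.log ((d + (k + 1) : ℕ) : ℝ) := Real.log_natCast_nonneg _
  have h4 : Real.log ((d + (k + 1) : ℕ) : ℝ) ^ (k + 1) ≤ (2 * Real.log d) ^ (k + 1) :=
    pow_le_pow_left₀ h3 h1 _
  rw [mul_pow] at h4
  rw [div_mul_eq_mul_div, div_le_iff₀ (by positivity)]
  have h5 := mul_le_mul_of_nonneg_left h4 hc.le
  linarith

end Aux

/-- **Exact order for few facets.** For every `k ≥ 1` there are constants `c > 0` and `C` such that
the worst-case expected number `R d (d + k)` of random-edge pivot steps on simple `d`-polytopes with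
`n = d + k` facets is at most `C (1 + log n) ^ k` for all `d`, and at least `c (log n) ^ k` for all
sufficiently large `d`. -/
theorem result : ∀ k : ℕ, 1 ≤ k → ∃ c C : ℝ, 0 < c ∧
    (∀ d : ℕ, R d (d + k) ≤ ENNReal.ofReal (C * (1 + Real.log ((d + k : ℕ) : ℝ)) ^ k)) ∧
    ∃ D : ℕ, ∀ d ≥ D, ENNReal.ofReal (c * Real.log ((d + k : ℕ) : ℝ) ^ k) ≤ R d (d + k) := by
  intro k hk
  obtain ⟨C, hC⟩ := Aux.upper k
  obtain ⟨c, hc, D, hD⟩ := Aux.lower' k hk
  exact ⟨c, C, hc, hC, D, hD⟩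

end Pool.Agent.Results.MP_97b7ce_lc.FewFacets
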