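import Pool.Agent.SharpV.Upper
import Pool.Agent.SharpV.Lower

/-!
# Random edge and the number of vertices

Among all simple `d`-polytopes with at most `N` vertices the worst-case expected number of pivot
steps of the random-edge simplex method is of the exact order `N log d / d`, uniformly in `d` and
`N`. The upper bound improves the bound `13 N / √d` of Gärtner and Kaibel.
-/

open scoped ENNReal
open Pool.Agent.Hhelper78.RandomEdge Pool.Agent.FewFacets Pool.Agent.SharpV

namespace Pool.Agent.Results.MP_97b7ce_lc.VertexBound

/-- The number of vertices of the polytope of the instance. -/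
noncomputable def numVert {d n : ℕ} (L : LPInstance d n) : ℕ :=
  ((poly L.A L.b).extremePoints ℝ).ncard

/-- The supremum of the expected number of pivot steps over all instances (with any number of
facets) whose polytope is a simple `d`-polytope with at most `N` vertices. -/
noncomputable def rho (d N : ℕ) : ℝ≥0∞ :=
  ⨆ n : ℕ, ⨆ L : LPInstance d n, ⨆ _ : numVert L ≤ N, L.expectedSteps

/-- The greatest number of vertices of a simple `d`-polytope with `n` facets (of an instance). -/
noncomputable def V (d n : ℕ) : ℝ≥0∞ := ⨆ L : LPInstance d n, (numVert L : ℝ≥0∞)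

namespace Aux

variable {d n : ℕ}

lemma card_eq (L : LPInstance d n) : Fintype.card (Vert L) = numVert L := by
  unfold numVert
  rw [← Nat.card_coe_set_eq, ← Nat.card_eq_fintype_card]

lemma harm_le (hd : 2 ≤ d) : (harmonic (d + 1) : ℝ) ≤ 3.45 * Real.log d := by
  have h1 := harmonic_le_one_add_log (d + 1)
  have h2 : Real.log ((d + 1 : ℕ) : ℝ) ≤ Real.log 2 + Real.log d := by
    rw [← Real.log_mul (by norm_num) (by positivity)]
    apply Real.log_le_log (by positivity)
    push_cast
    have : (2 : ℝ) ≤ d := by exact_mod_cast hd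
    linarith
  have h3 : Real.log 2 ≤ Real.log d :=
    Real.log_le_log (by norm_num) (by exact_mod_cast hd)
  have h4 := Real.log_two_gt_d9
  nlinarith

lemma upper_num (hd : 2 ≤ d) {N : ℕ} :
    2 * Real.exp 1 * N * (harmonic (d + 1) : ℝ) / (d + 1) ≤ 20 * N * Real.log d / d := by
  have h1 := harm_le hd
  have he := Real.exp_one_lt_d9
  have h3 : (0 : ℝ) < d := by positivity
  have h4 : 0 ≤ Real.log d := Real.log_natCast_nonneg _
  have hN : (0 : ℝ) ≤ N := by positivity
  have h0 : (0 : ℝ) ≤ (harmonic (d + 1) : ℝ) := by
    have : (0 : ℚ) < harmonic (d + 1) := harmonic_pos (by omega)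
    exact_mod_cast this.le
  calc 2 * Real.exp 1 * N * (harmonic (d + 1) : ℝ) / (d + 1) ≤
      2 * Real.exp 1 * N * (harmonic (d + 1) : ℝ) / d := by
        apply div_le_div_of_nonneg_left _ h3 (by linarith)
        have := Real.exp_pos 1
        positivity
    _ ≤ 20 * N * Real.log d / d := by
        apply div_le_div_of_nonneg_right _ h3.le
        have h5 : 2 * Real.exp 1 * (harmonic (d + 1) : ℝ) ≤ 20 * Real.log d := by
          have h6 : 2 * Real.exp 1 * (harmonic (d + 1) : ℝ) ≤
              2 * 2.7182818286 * (3.45 * Real.log d) := by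
            have := Real.exp_pos 1
            gcongr
          linarith
        nlinarith

end Aux

/-- **Random edge and the number of vertices.** For every instance in dimension `d` whose polytope
has `N` vertices the expected number of pivot steps is at most `2 e N H_{d+1} / (d + 1)`, where
`H_k` is the harmonic number. This is best possible up to a constant factor, uniformly in `d` and
`N`: for all `d ≥ 2` and `N ≥ d + 1` the worst case over all simple `d`-polytopes with at most `N`
vertices lies between `N log d / (2 d)` and `20 N log d / d`. In particular `R d n` is at most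
`2 e H_{d+1} / (d + 1)` times the greatest number of vertices of a simple `d`-polytope with `n`
facets. -/
theorem result :
    (∀ (d n : ℕ) (L : LPInstance d n), L.expectedSteps ≤
      ENNReal.ofReal (2 * Real.exp 1 * numVert L * (harmonic (d + 1) : ℝ) / (d + 1))) ∧
    (∀ d N : ℕ, 2 ≤ d → d + 1 ≤ N →
      ENNReal.ofReal (N * Real.log d / (2 * d)) ≤ rho d N ∧
      rho d N ≤ ENNReal.ofReal (20 * N * Real.log d / d)) ∧
    (∀ d n : ℕ, R d n ≤
      ENNReal.ofReal (2 * Real.exp 1 * (harmonic (d + 1) : ℝ) / (d + 1)) * V d n) := by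
  have hup : ∀ (d n : ℕ) (L : LPInstance d n), L.expectedSteps ≤
      ENNReal.ofReal (2 * Real.exp 1 * numVert L * (harmonic (d + 1) : ℝ) / (d + 1)) := by
    intro d n L
    rw [← Aux.card_eq L]
    exact expectedSteps_le_card L
  refine ⟨hup, fun d N hd hN => ⟨?_, ?_⟩, fun d n => ?_⟩
  · have hdm := Nat.div_add_mod (N - (d + 1)) (d - 1)
    have hml := Nat.mod_lt (N - (d + 1)) (show 0 < d - 1 by omega)
    generalize (N - (d + 1)) / (d - 1) = m at hdm
    obtain ⟨L, -, h2, h3⟩ := chain hd m
    rw [Aux.card_eq] at h2
    have h4 : numVert L ≤ N := by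
      refine h2.trans ?_
      rw [Nat.mul_comm]
      omega
    have h5 : N ≤ (m + 2) * d := by
      obtain ⟨e, rfl⟩ : ∃ e, d = e + 1 := ⟨d - 1, by omega⟩
      have h6 : e + 1 - 1 = e := by omega
      rw [h6] at hdm hml
      have h7 : N = e * m + (N - (e + 1 + 1)) % e + (e + 2) := by omega
      nlinarith
    refine le_trans ?_ (le_iSup_of_le (d + 1 + m) (le_iSup_of_le L (le_iSup_of_le h4 le_rfl)))
    refine le_trans (ENNReal.ofReal_le_ofReal ?_) h3
    have h8 : (N : ℝ) ≤ (m + 2) * d := by exact_mod_cast h5
    have h9 : (0 : ℝ) < d := by positivity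
    have h10 : 0 ≤ Real.log d := Real.log_natCast_nonneg _
    rw [div_le_iff₀ (by positivity)]
    nlinarith
  · unfold rho
    refine iSup_le fun n => iSup_le fun L => iSup_le fun h => ?_
    refine (hup d n L).trans ((ENNReal.ofReal_le_ofReal (Aux.upper_num hd)).trans ?_)
    apply ENNReal.ofReal_le_ofReal
    have h10 : 0 ≤ Real.log d := Real.log_natCast_nonneg _
    have h11 : (numVert L : ℝ) ≤ N := by exact_mod_cast h
    gcongr
  · unfold R
    refine iSup_le fun L => (hup d n L).trans ?_
    have h1 : 2 * Real.exp 1 * numVert L * (harmonic (d + 1) : ℝ) / (d + 1) =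
        2 * Real.exp 1 * (harmonic (d + 1) : ℝ) / (d + 1) * numVert L := by ring
    have h0 : (0 : ℝ) ≤ (harmonic (d + 1) : ℝ) := by
      have : (0 : ℚ) < harmonic (d + 1) := harmonic_pos (by omega)
      exact_mod_cast this.le
    have he := Real.exp_pos 1
    rw [h1, ENNReal.ofReal_mul (by positivity), ENNReal.ofReal_natCast]
    gcongr
    exact le_iSup (fun L : LPInstance d n => (numVert L : ℝ≥0∞)) L

end Pool.Agent.Results.MP_97b7ce_lc.VertexBound
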